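import Pool.Agent.Y892.DP.D2
import Pool.Agent.Y495.DP.W
import Pool.Agent.Y528.DP.C3
import Pool.Agent.Y849.DP.Fix
import Pool.Agent.Y849.DP.Dze
import Pool.Agent.Y576.DP.Red
import Pool.Agent.Y784.DP.SL
import Pool.Agent.Y983.DP.Jor
import Pool.Agent.Y475.DP.Krn
import Pool.Agent.Y813.DP.Zp
import Pool.Agent.Y188.DP.Mul
import Pool.Agent.Y532.DP.Zn
import Pool.Agent.Y26.DP.Znd
import Pool.Agent.Y31.DP.Dgc

/-!
# Dade's invariant conjecture, summed over blocks, is equivalent to the conjecture of Knörr and Robinson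

`N` is a subgroup of the finite group `G`, `e` an element of `G` which normalises `N`.  For the group
`N` and its extension `E = N⟨e⟩`, Dade's invariant conjecture says that, for a subgroup `U = ⟨e^c N⟩` of
`E / N`, the alternating sum over the `N`-classes of chains `σ` of `p`-subgroups of the number of the
`ψ ∈ Irr(N_σ)` whose stabiliser in `E_σ` has image `U`, with given defect `d` and `bl(ψ)^N = B`,
vanishes.  `stabSum p N e c` is the sum of these numbers over all `B` and `d`, `stabZero p N e c` the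
contribution of the blocks of defect zero.

* (1) Let `e = a b` with the `p`-part `a` and the `p`-regular part `b`, `m` the order of `b` modulo `N`
  and `J₂` Jordan's totient.  Let `invSum p N e` be the alternating sum of the numbers of characters
  fixed by an element of `e N ∩ G_σ`, and `invZero p N e` the number of the characters of `N` of defect
  zero fixed by `e`.  Then
  `J₂(m) |N| invSum p N e = ∑_u ∑_{d ∣ m} μ(d) |C_d(u)| krSum p (C_d(u))` and
  `J₂(m) |N| invZero p N e = ∑_u ∑_{d ∣ m} μ(d) |C_d(u)| numDefectZero p (C_d(u))`,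
  where `u` runs over the `p`-elements of `a N` with `⟨u⟩ ∩ N = 1`, `C_d(u)` is the centraliser of `u`
  in `N⟨b^d⟩` and `krSum` is the alternating sum of Knörr and Robinson.
* (2) The equalities `stabSum p N e c = stabZero p N e c` for all finite `G`, all `N` with
  `O_p(N) = 1`, all `e` and all `c` hold if and only if `krSum p G = numDefectZero p G` for all finite
  groups `G` (Alperin's weight conjecture in the form of Knörr and Robinson).
* (3) If the order of `e` modulo `N` is prime to `p`, the equalities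
  `invSum p N (e^c) = invZero p N (e^c)` for all `c` are equivalent to the equalities of Knörr and
  Robinson for the groups `N⟨e^c⟩`.

Authors: helper892 (plan, assembly), helper849 (fixed characters and pairs; idempotents), helper576
(reduction to `p`-regular automorphisms), helper784 (substitutions), helper983 (Möbius inversion),
helper475 (Knörr–Robinson sums of cyclic extensions), helper813 (characters of defect zero and
commutators), helper188 (multiplicity one), helper532 (defect zero in cyclic extensions), helper26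
(invariant characters of defect zero in cyclic extensions), helper31 (invariant characters of defect
zero for `p`-automorphisms), helper474, helper657, helper77, helper44 (count of Dade, Glauberman and
Nagao), helper495 (chains), helper528 (Knörr–Robinson sums and pairs), helper63 (library KR, AWC, NV),
helper884 (library IC).
-/

set_option autoImplicit false

open scoped Classical BigOperators

namespace Pool.Agent.Results.MP_baa4d7_al.EquivalentToKnorrRobinson

open Pool.Agent.Y892.DP Pool.Agent.Y63.KR Pool.Agent.Y63.AWC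

theorem conj_of_prod {p : ℕ} [Fact p.Prime] {G : Type} [Group G] [Finite G] {N : Subgroup G}
    {a b : G} (hab : a * b = b * a) (ha : ∃ k : ℕ, a ^ p ^ k = 1) (hb : ¬ p ∣ orderOf b)
    (hN : conjSub (a * b) N = N) : conjSub b N = N := by
  rw [conjSub_eq_iff] at hN ⊢
  obtain ⟨k, hk⟩ := ha
  have h1 : (a * b) ^ p ^ k = b ^ p ^ k := by
    rw [(show Commute a b from hab).mul_pow, hk, one_mul]
  have h2 : b ^ p ^ k ∈ Subgroup.normalizer (N : Set G) := by
    rw [← h1]
    exact Subgroup.pow_mem _ hN _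
  have h3 : Nat.Coprime (p ^ k) (orderOf b) :=
    Nat.Coprime.pow_left k ((Nat.Prime.coprime_iff_not_dvd Fact.out).mpr hb)
  obtain ⟨i, hi⟩ := exists_pow_eq_self_of_coprime h3
  rw [← hi]
  exact Subgroup.pow_mem _ h2 _

theorem conj_left {G : Type} [Group G] {N : Subgroup G}
    {a b : G} (hN : conjSub (a * b) N = N) (hb : conjSub b N = N) : conjSub a N = N := by
  rw [conjSub_mul, hb] at hN
  exact hN

theorem result (p : ℕ) [Fact p.Prime] :
    (∀ (G : Type) [Group G] [Finite G] (N : Subgroup G) (a b : G) (m : ℕ), a * b = b * a →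
      (∃ k : ℕ, a ^ p ^ k = 1) → ¬ p ∣ orderOf b → conjSub (a * b) N = N → 0 < m →
      (∀ k : ℕ, b ^ k ∈ N ↔ m ∣ k) →
      (jordan2 m : ℤ) * ((Nat.card N : ℤ) * invSum p N (a * b)) =
        ∑ᶠ u : {u : G // a⁻¹ * u ∈ N ∧ (∃ k : ℕ, u ^ p ^ k = 1) ∧ Subgroup.zpowers u ⊓ N = ⊥},
          ∑ d ∈ m.divisors, ArithmeticFunction.moebius d *
            ((Nat.card ↥(Subgroup.centralizer {u.1} ⊓ (N ⊔ Subgroup.zpowers (b ^ d))) : ℤ) *
              krSum p ↥(Subgroup.centralizer {u.1} ⊓ (N ⊔ Subgroup.zpowers (b ^ d)))) ∧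
      (jordan2 m : ℤ) * ((Nat.card N : ℤ) * (invZero p N (a * b) : ℤ)) =
        ∑ᶠ u : {u : G // a⁻¹ * u ∈ N ∧ (∃ k : ℕ, u ^ p ^ k = 1) ∧ Subgroup.zpowers u ⊓ N = ⊥},
          ∑ d ∈ m.divisors, ArithmeticFunction.moebius d *
            ((Nat.card ↥(Subgroup.centralizer {u.1} ⊓ (N ⊔ Subgroup.zpowers (b ^ d))) : ℤ) *
              (numDefectZero p
                ↥(Subgroup.centralizer {u.1} ⊓ (N ⊔ Subgroup.zpowers (b ^ d))) : ℤ))) ∧
    ((∀ (G : Type) [Group G] [Finite G] (N : Subgroup G) (e : G) (m c : ℕ), conjSub e N = N →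
      OpTrivial p N → 0 < m → (∀ k : ℕ, e ^ k ∈ N ↔ m ∣ k) → c ∣ m →
      stabSum p N e c = (stabZero p N e c : ℤ)) ↔
    ∀ (G : Type) [Group G] [Finite G], krSum p G = (numDefectZero p G : ℤ)) ∧
    ∀ (G : Type) [Group G] [Finite G] (N : Subgroup G) (e : G) (m : ℕ), conjSub e N = N → 0 < m →
      (∀ k : ℕ, e ^ k ∈ N ↔ m ∣ k) → ¬ p ∣ m →
      ((∀ c : ℕ, invSum p N (e ^ c) = (invZero p N (e ^ c) : ℤ)) ↔
        ∀ c : ℕ, krSum p ↥(N ⊔ Subgroup.zpowers (e ^ c)) =
          (numDefectZero p ↥(N ⊔ Subgroup.zpowers (e ^ c)) : ℤ)) := by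
  have hpair : S_PAIR := Pool.Agent.Y849.DP.pair Pool.Agent.Y495.DP.gen Pool.Agent.Y849.DP.fix
  have hred : S_RED := Pool.Agent.Y576.DP.red Pool.Agent.Y495.DP.w2 Pool.Agent.Y495.DP.w3
  have hsl : S_SL := Pool.Agent.Y784.DP.sl
  have hkrp : S_KRP := Pool.Agent.Y528.DP.krp Pool.Agent.Y495.DP.gen
  have hkrn : S_KRN := Pool.Agent.Y475.DP.krn Pool.Agent.Y495.DP.w1 hkrp
  have hjor : S_JOR := Pool.Agent.Y983.DP.jor
  have hdgc : S_DGC := Pool.Agent.Y31.DP.dgc
  have hznd : S_ZND := Pool.Agent.Y26.DP.znd hsl Pool.Agent.Y813.DP.zpair Pool.Agent.Y813.DP.dzc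
    Pool.Agent.Y849.DP.dze
  refine ⟨fun G _ _ N a b m hab ha hb hN hm hk => ⟨?_, ?_⟩, ?_,
    fun G _ _ N e m he hm hk hpm => ?_⟩
  · exact formula_inv hpair hred hsl hjor hkrn p N a b m hab ha hb hN
      (conj_of_prod hab ha hb hN) hm hk
  · exact formula_zero_all hznd hdgc hjor p N a b m hab ha hb
      (conj_left hN (conj_of_prod hab ha hb hN)) (conj_of_prod hab ha hb hN) hm hk
  · exact equiv_stab Pool.Agent.Y495.DP.w2 hpair hred hsl hjor hkrn hkrp hznd hdgc p
  · exact equiv_inv hpair hsl hjor hkrn Pool.Agent.Y813.DP.zpair Pool.Agent.Y813.DP.dzc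
      (Pool.Agent.Y532.DP.zn Pool.Agent.Y188.DP.mul) p N e m he hm hk hpm

end Pool.Agent.Results.MP_baa4d7_al.EquivalentToKnorrRobinson
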